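import Mathlib

set_option autoImplicit false

namespace Pool.Agent.H.MP_9a581e_an

open MeasureTheory Filter Topology Equiv

/-- The norm closure of the star-algebra generated by a set `S` in a C*-algebra. -/
noncomputable def Gen {A : Type} [CStarAlgebra A] (S : Set A) : NonUnitalStarSubalgebra ℂ A :=
  (NonUnitalStarAlgebra.adjoin ℂ S).topologicalClosure

/-- The C*-algebras generated by `S` and `S'` are star-isomorphic. -/
def GenIso {A B : Type} [CStarAlgebra A] [CStarAlgebra B] (S : Set A) (S' : Set B) : Prop :=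
  Nonempty (Gen S ≃⋆ₐ[ℂ] Gen S')

lemma gen_map {A B : Type} [CStarAlgebra A] [CStarAlgebra B] {S : Set A} {S' : Set B}
    (e : A ≃⋆ₐ[ℂ] B) (h : ∀ a ∈ S, e a ∈ S') (a : A) (ha : a ∈ Gen S) : e a ∈ Gen S' :=
  NonUnitalStarSubalgebra.topologicalClosure_minimal _ (t := (Gen S').comap e)
    (NonUnitalStarAlgebra.adjoin_le fun b hb => NonUnitalStarSubalgebra.le_topologicalClosure _
      (NonUnitalStarAlgebra.subset_adjoin ℂ _ (h b hb)))
    ((NonUnitalStarSubalgebra.isClosed_topologicalClosure _).preimage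
      (StarAlgEquiv.isometry e).continuous) ha

lemma gen_iso {A B : Type} [CStarAlgebra A] [CStarAlgebra B] {S : Set A} {S' : Set B}
    (e : A ≃⋆ₐ[ℂ] B) (h : ∀ a ∈ S, e a ∈ S') (h' : ∀ a ∈ S', e.symm a ∈ S) : GenIso S S' :=
  ⟨{ toFun := fun T => ⟨_, gen_map e h T.1 T.2⟩
     invFun := fun T => ⟨_, gen_map e.symm h' T.1 T.2⟩
     left_inv := fun T => Subtype.ext (e.symm_apply_apply T.1)
     right_inv := fun T => Subtype.ext (e.apply_symm_apply T.1)
     map_mul' := fun S T => Subtype.ext (map_mul e S.1 T.1)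
     map_add' := fun S T => Subtype.ext (map_add e S.1 T.1)
     map_star' := fun T => Subtype.ext (map_star e T.1)
     map_smul' := fun c T => Subtype.ext (map_smul e c T.1) }⟩

section Hilb

variable {G G' E E' : Type} [MeasurableSpace G] [MeasurableSpace G']
  [NormedAddCommGroup E] [InnerProductSpace ℂ E] [CompleteSpace E]
  [NormedAddCommGroup E'] [InnerProductSpace ℂ E'] [CompleteSpace E']

/-- The image of `L¹(μ)` under the integrated form of the family of operators `ρ`. -/
def L1im (μ : Measure G) (ρ : G → E → E) : Set (E →L[ℂ] E) :=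
  {T | ∃ f : G → ℂ, Integrable f μ ∧
    ∀ ξ η : E, inner ℂ η (T ξ) = ∫ g, f g * inner ℂ η (ρ g ξ) ∂μ}

/-- The C*-algebras generated by the two images of `L¹` are star-isomorphic. -/
def RepIso (μ : Measure G) (ρ : G → E → E) (μ' : Measure G') (ρ' : G' → E' → E') : Prop :=
  GenIso (L1im μ ρ) (L1im μ' ρ')

lemma im_map {μ : Measure G} {ρ : G → E → E} {ν : Measure G'} {ρ' : G' → E' → E'}
    (m : G ≃ᵐ G') (hm : MeasurePreserving m μ ν) (W : E ≃ₗᵢ[ℂ] E')
    (hW : ∀ g ξ, W (ρ g ξ) = ρ' (m g) (W ξ)) (T : E →L[ℂ] E)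
    (hT : T ∈ L1im μ ρ) : W.conjStarAlgEquiv T ∈ L1im ν ρ' := by
  obtain ⟨f, f1, f2⟩ := hT
  refine ⟨f ∘ m.symm, (hm.symm.integrable_comp_emb m.symm.measurableEmbedding).2 f1,
    fun ξ η => ?_⟩
  show inner ℂ η (W (T (W.symm ξ))) = _
  rw [← hm.integral_comp', ← W.symm.inner_map_map, W.symm_apply_apply, f2]
  refine integral_congr_ae (.of_forall fun g => ?_)
  simp only [Function.comp, MeasurableEquiv.symm_apply_apply]
  rw [← W.inner_map_map, hW, W.apply_symm_apply, W.apply_symm_apply]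

end Hilb

section Cstar

variable {G : Type} [Group G] [TopologicalSpace G] [IsTopologicalGroup G] [MeasurableSpace G]
  [BorelSpace G]

/-- Left regular representation: `(lam μ g ξ)(x) = ξ(g⁻¹ x)`. -/
noncomputable def lam (μ : Measure G) [μ.IsMulLeftInvariant] (g : G) (ξ : Lp ℂ 2 μ) : Lp ℂ 2 μ :=
  Lp.compMeasurePreserving (fun x => g⁻¹ * x) (measurePreserving_mul_left μ g⁻¹) ξ

variable {H : Type} [Group H] [TopologicalSpace H] [IsTopologicalGroup H] [MeasurableSpace H]
  [BorelSpace H]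

/-- The reduced group C*-algebras of `G` and `H` are star-isomorphic. -/
def CrIso (μ : Measure G) [μ.IsMulLeftInvariant] (ν : Measure H) [ν.IsMulLeftInvariant] : Prop :=
  RepIso μ (lam μ) ν (lam ν)

theorem cr_iso (μ : Measure G) [μ.IsMulLeftInvariant] (ν : Measure H) [ν.IsMulLeftInvariant]
    (e : G ≃ₜ* H) (he : MeasurePreserving e μ ν) : CrIso μ ν := by
  have he' : MeasurePreserving e.symm ν μ :=
    MeasurePreserving.symm e.toHomeomorph.toMeasurableEquiv he
  let W : Lp ℂ 2 μ ≃ₗᵢ[ℂ] Lp ℂ 2 ν := .ofSurjective (Lp.compMeasurePreservingₗᵢ ℂ e.symm he')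
    fun ξ => ⟨Lp.compMeasurePreserving e he ξ, by
      show Lp.compMeasurePreserving _ he' _ = _
      rw [← Lp.compMeasurePreserving_comp_apply]
      convert Lp.compMeasurePreserving_id_apply ξ
      exact e.self_comp_symm⟩
  have hW : ∀ g ξ, W (lam μ g ξ) = lam ν (e g) (W ξ) := fun g ξ => by
    show Lp.compMeasurePreserving _ he' _ = Lp.compMeasurePreserving _ _
      (Lp.compMeasurePreserving _ he' _)
    rw [lam, ← Lp.compMeasurePreserving_comp_apply, ← Lp.compMeasurePreserving_comp_apply]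
    congr 2
    ext x
    simp
  exact gen_iso W.conjStarAlgEquiv (im_map e.toHomeomorph.toMeasurableEquiv he W hW)
    (im_map e.symm.toHomeomorph.toMeasurableEquiv he' W.symm fun g ξ => by
      rw [W.symm_apply_eq, hW, W.apply_symm_apply]
      exact congrArg (lam ν · ξ) (e.apply_symm_apply g).symm)

end Cstar

variable {V : Type} {d : ℕ}

/-- A legal colouring: bijective on the edges at each vertex. -/
def Legal (T : SimpleGraph V) (c : Sym2 V → Fin d) : Prop :=
  ∀ v, Set.BijOn c (T.incidenceSet v) Set.univ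

/-- The Burger-Mozes group: automorphisms all of whose local actions lie in `F`. -/
def U (T : SimpleGraph V) (c : Sym2 V → Fin d) (F : Subgroup (Perm (Fin d))) :
    Subgroup (Perm V) where
  carrier := {g | (∀ v w, T.Adj (g v) (g w) ↔ T.Adj v w) ∧
    ∀ v, ∃ σ ∈ F, ∀ w, T.Adj v w → c s(g v, g w) = σ (c s(v, w))}
  one_mem' := ⟨fun _ _ => Iff.rfl, fun _ => ⟨1, F.one_mem, fun _ _ => rfl⟩⟩
  mul_mem' := fun {g h} hg hh => ⟨fun v w => (hg.1 _ _).trans (hh.1 v w), fun v => by
    obtain ⟨σ, s1, s2⟩ := hg.2 (h v)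
    obtain ⟨τ, t1, t2⟩ := hh.2 v
    exact ⟨σ * τ, F.mul_mem s1 t1, fun w hw =>
      (s2 _ ((hh.1 v w).2 hw)).trans (congrArg σ (t2 w hw))⟩⟩
  inv_mem' := fun {g} hg => ⟨fun v w => by rw [← hg.1]; simp, fun v => by
    obtain ⟨σ, s1, s2⟩ := hg.2 (g⁻¹ v)
    refine ⟨σ⁻¹, F.inv_mem s1, fun w hw => ?_⟩
    have := s2 (g⁻¹ w) (by rw [← hg.1]; simpa using hw)
    simp only [Perm.coe_inv, apply_symm_apply] at this ⊢
    simp [this]⟩

variable {T : SimpleGraph V} {c : Sym2 V → Fin d} {F : Subgroup (Perm (Fin d))}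

/-- Topology of pointwise convergence on the (discrete) vertex set. -/
instance : TopologicalSpace (U T c F) :=
  .induced (fun g v => g.1 v) (@Pi.topologicalSpace V (fun _ => V) fun _ => ⊥)

lemma tendU {X : Type} {l : Filter X} {f : X → U T c F} {g : U T c F} :
    Tendsto f l (𝓝 g) ↔ ∀ v, ∀ᶠ x in l, (f x).1 v = g.1 v := by
  let _ : TopologicalSpace V := ⊥
  have : DiscreteTopology V := ⟨rfl⟩
  rw [nhds_induced, tendsto_comap_iff, tendsto_pi_nhds]
  simp

lemma evU (g : U T c F) (v : V) : ∀ᶠ h in 𝓝 g, h.1 v = g.1 v := tendU.1 tendsto_id v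

instance : IsTopologicalGroup (U T c F) where
  continuous_mul := continuous_iff_continuousAt.2 fun p => tendU.2 fun v => by
    filter_upwards [(continuous_fst.tendsto p).eventually (evU p.1 (p.2.1 v)),
      (continuous_snd.tendsto p).eventually (evU p.2 v)] with q h1 h2
    show q.1.1 (q.2.1 v) = p.1.1 (p.2.1 v)
    rw [h2, h1]
  continuous_inv := continuous_iff_continuousAt.2 fun g => tendU.2 fun v => by
    filter_upwards [evU g (g.1⁻¹ v)] with h h1
    show h.1⁻¹ v = g.1⁻¹ v
    rw [Perm.inv_eq_iff_eq, h1]; simp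

/-- Borel sets. -/
instance : MeasurableSpace (U T c F) := borel _

instance : BorelSpace (U T c F) := ⟨rfl⟩

end Pool.Agent.H.MP_9a581e_an
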