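import Mathlib
import Pool.Agent.H.MP_9a581e_an.A

set_option autoImplicit false

namespace Pool.Agent.H.MP_9a581e_an

open MeasureTheory Filter Topology Equiv SimpleGraph

/-- coloured tree data -/
structure CT (V : Type) (d : ℕ) where
  nb : V → Fin d → V
  ht : V → ℕ
  r : V
  inv : ∀ v i, nb (nb v i) i = v
  inj : ∀ v i j, nb v i = nb v j → i = j
  ne : ∀ v i, ht (nb v i) ≠ ht v
  one : ∀ v i j, ht (nb v i) < ht v → ht (nb v j) < ht v → i = j
  ex : ∀ v, v ≠ r → ∃ i, ht (nb v i) < ht v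

variable {V : Type} {d : ℕ} (X : CT V d)

/-- graph -/
def CT.T : SimpleGraph V where
  Adj v w := ∃ i, X.nb v i = w
  symm := ⟨fun v _ ⟨i, h⟩ => ⟨i, h ▸ X.inv v i⟩⟩
  loopless := ⟨fun v ⟨i, h⟩ => X.ne v i (by rw [h])⟩

lemma CT.col [NeZero d] : ∃ c : Sym2 V → Fin d, ∀ v i, c s(v, X.nb v i) = i := by
  classical
  refine ⟨fun e => if h : ∃ i v, e = s(v, X.nb v i) then h.choose else 0, fun v i => ?_⟩
  have h : ∃ j w, s(v, X.nb v i) = s(w, X.nb w j) := ⟨i, v, rfl⟩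
  simp only [dif_pos h]
  obtain ⟨w, hw⟩ := h.choose_spec
  rcases Sym2.eq_iff.1 hw with ⟨rfl, e⟩ | ⟨e, rfl⟩
  · exact (X.inj _ _ _ e).symm
  · exact X.inj _ _ _ (e.symm.trans (X.inv v i).symm)

lemma CT.tree : X.T.IsTree := by
  refine ⟨connected_iff_exists_forall_reachable _ |>.2 ⟨X.r, fun v => ?_⟩, ?_⟩
  · induction h : X.ht v using Nat.strong_induction_on generalizing v with
    | _ n ih =>
      by_cases hv : v = X.r
      · rw [hv]
      · obtain ⟨i, hi⟩ := X.ex v hv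
        exact (ih _ (h ▸ hi) _ rfl).trans (Adj.reachable ⟨i, X.inv v i⟩)
  have key : ∀ v w, X.T.Adj v w → X.ht w < X.ht v → X.T.IsBridge s(v, w) := by
    rintro v _ ⟨i, rfl⟩ hi h
    let R := Relation.ReflTransGen (fun x y => X.T.Adj x y ∧ X.ht x < X.ht y) v
    have h1 : ∀ x, R x → X.ht v ≤ X.ht x := fun x hx => by
      induction hx with
      | refl => rfl
      | tail _ h ih => exact ih.trans h.2.le
    have h2 : ∀ x, (X.T.deleteEdges {s(v, X.nb v i)}).Reachable v x → R x := fun x hx => by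
      induction (reachable_iff_reflTransGen _ _).1 hx with
      | refl => exact .refl
      | @tail x y h3 h4 ih =>
        have ih := ih ((reachable_iff_reflTransGen _ _).2 h3)
        obtain ⟨⟨j, rfl⟩, h5⟩ := deleteEdges_adj.1 h4
        rcases (X.ne x j).lt_or_gt with h6 | h6
        · rcases ih.cases_tail with rfl | ⟨z, z1, z2, z3⟩
          · exact absurd (by rw [X.one _ _ _ h6 hi]; rfl) h5
          · obtain ⟨k, rfl⟩ := z2.symm
            rwa [X.one _ _ _ h6 z3]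
        · exact ih.tail ⟨⟨j, rfl⟩, h6⟩
    exact hi.not_ge (h1 _ (h2 _ h))
  refine isAcyclic_iff_forall_adj_isBridge.2 fun v w h => ?_
  obtain ⟨i, rfl⟩ := h
  rcases (X.ne v i).lt_or_gt with h6 | h6
  · exact key _ _ ⟨i, rfl⟩ h6
  · rw [Sym2.eq_swap]; exact key _ _ ⟨i, X.inv v i⟩ h6

variable {X} {c : Sym2 V → Fin d} (hc : ∀ v i, c s(v, X.nb v i) = i) {F : Subgroup (Perm (Fin d))}
include hc

lemma legal : Legal X.T c := fun v => by
  have h : ∀ e ∈ X.T.incidenceSet v, ∃ i, e = s(v, X.nb v i) := fun e he => by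
    obtain ⟨w, rfl⟩ := Sym2.mem_iff_exists.1 he.2
    obtain ⟨i, rfl⟩ := (mem_edgeSet _).1 he.1
    exact ⟨i, rfl⟩
  refine ⟨fun _ _ => trivial, fun e he e' he' h' => ?_, fun i _ =>
    ⟨_, (mk'_mem_incidenceSet_left_iff _).2 ⟨i, rfl⟩, hc v i⟩⟩
  obtain ⟨i, rfl⟩ := h e he
  obtain ⟨j, rfl⟩ := h e' he'
  rw [hc, hc] at h'
  rw [h']

lemma memU {g : Perm V} : g ∈ U X.T c F ↔
    ∀ v, ∃ σ ∈ F, ∀ i, g (X.nb v i) = X.nb (g v) (σ i) := by
  refine ⟨fun h v => ?_, fun h => ⟨fun v w => ?_, fun v => ?_⟩⟩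
  · obtain ⟨σ, s1, s2⟩ := h.2 v
    refine ⟨σ, s1, fun i => ?_⟩
    obtain ⟨j, hj⟩ := (h.1 v _).2 ⟨i, rfl⟩
    have := s2 _ ⟨i, rfl⟩
    rw [← hj, hc, hc] at this
    rw [← hj, this]
  · obtain ⟨σ, -, s2⟩ := h v
    refine ⟨fun ⟨j, hj⟩ => ⟨σ.symm j, g.injective ?_⟩, fun ⟨i, hi⟩ => ⟨σ i, by rw [← s2, hi]⟩⟩
    rw [s2, apply_symm_apply, hj]
  · obtain ⟨σ, s1, s2⟩ := h v
    refine ⟨σ, s1, ?_⟩
    rintro _ ⟨i, rfl⟩
    rw [s2, hc, hc]

lemma lc : LocallyCompactSpace (U X.T c F) := by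
  have fin : ∀ v, {w | ∃ g : U X.T c F, g.1 X.r = X.r ∧ g.1 v = w}.Finite := fun v => by
    induction (reachable_iff_reflTransGen _ _).1 (X.tree.connected X.r v) with
    | refl => exact (Set.finite_singleton X.r).subset fun w ⟨g, g1, g2⟩ => g2.symm.trans g1
    | tail _ h ih =>
      obtain ⟨i, rfl⟩ := h
      refine (ih.image2 X.nb Set.finite_univ).subset ?_
      rintro _ ⟨g, g1, rfl⟩
      obtain ⟨σ, -, s2⟩ := (memU hc).1 g.2 _
      exact ⟨_, ⟨g, g1, rfl⟩, _, trivial, (s2 i).symm⟩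
  refine IsCompact.locallyCompactSpace_of_mem_nhds_of_group (K := {g | g.1 X.r = X.r})
    (isCompact_iff_ultrafilter_le_nhds.2 fun l hl => ?_) (evU 1 X.r)
  have hl : ∀ᶠ g in (l : Filter (U X.T c F)), g.1 X.r = X.r := le_principal_iff.1 hl
  have h1 : ∀ v, ∃ w, ∀ᶠ g in (l : Filter (U X.T c F)), g.1 v = w := fun v => by
    obtain ⟨w, -, h⟩ := (Ultrafilter.eventually_exists_mem_iff (f := l) (fin v)
      (P := fun w g => g.1 v = w)).1 (hl.mono fun g hg => ⟨_, ⟨g, hg, rfl⟩, rfl⟩)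
    exact ⟨w, h⟩
  have h2 : ∀ v, ∃ w, ∀ᶠ g in (l : Filter (U X.T c F)), g.1 w = v := fun v => by
    obtain ⟨w, -, h⟩ := (Ultrafilter.eventually_exists_mem_iff (f := l) (fin v)
      (P := fun w g => g.1 w = v)).1 (hl.mono fun g hg => ⟨_, ⟨g⁻¹, by
        show g.1⁻¹ _ = _
        rw [Perm.inv_eq_iff_eq, hg], rfl⟩, g.1.apply_symm_apply v⟩)
    exact ⟨w, h⟩
  choose f hf using h1
  have hb : Function.Bijective f := ⟨fun v w e => by
    obtain ⟨g, g1, g2⟩ := ((hf v).and (hf w)).exists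
    exact g.1.injective (g1.trans (e.trans g2.symm)), fun v => by
    obtain ⟨w, hw⟩ := h2 v
    obtain ⟨g, g1, g2⟩ := ((hf w).and hw).exists
    exact ⟨w, g1.symm.trans g2⟩⟩
  refine ⟨⟨ofBijective f hb, (memU hc).2 fun v => ?_⟩, ?_, tendU.2 hf⟩
  · obtain ⟨g, g1, g2⟩ := ((hf v).and (eventually_all.2 fun i => hf (X.nb v i))).exists
    obtain ⟨σ, s1, s2⟩ := (memU hc).1 g.2 v
    exact ⟨σ, s1, fun i => (g2 i).symm.trans ((s2 i).trans (by rw [g1]; rfl))⟩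
  · obtain ⟨g, g1, g2⟩ := ((hf X.r).and hl).exists
    exact g1.symm.trans g2

end Pool.Agent.H.MP_9a581e_an
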