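import Mathlib
import Pool.Agent.H.MP_9a581e_an.B

set_option autoImplicit false

namespace Pool.Agent.H.MP_9a581e_an

open Filter Topology Equiv List

/-- reduced words -/
def W : Type := {l : List (Fin 4) // l.IsChain (· ≠ ·)}

/-- neighbour of a word -/
def wn : W → Fin 4 → W
  | ⟨[], _⟩, i => ⟨[i], isChain_singleton i⟩
  | ⟨j :: t, h⟩, i => if e : j = i then ⟨t, h.tail⟩ else
      ⟨i :: j :: t, isChain_cons_cons.2 ⟨Ne.symm e, h⟩⟩

lemma wn_up (v : W) (i : Fin 4) (h : v.1.head? ≠ some i) : (wn v i).1 = i :: v.1 := by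
  obtain ⟨_ | ⟨j, t⟩, hv⟩ := v
  · rfl
  · simp only [wn]; rw [dif_neg (by simpa using h)]

lemma wn_dn (v : W) (i : Fin 4) (h : v.1.head? = some i) : v.1 = i :: (wn v i).1 ∧
    (wn v i).1.head? ≠ some i := by
  obtain ⟨_ | ⟨j, t⟩, hv⟩ := v
  · simp at h
  · obtain rfl : j = i := by simpa using h
    simp only [wn, dite_true, true_and]
    rcases t with _ | ⟨k, t⟩
    · simp
    · simpa using (isChain_cons_cons.1 hv).1.symm

lemma wn_cons (v w : W) (i : Fin 4) (h : v.1 = i :: w.1) : wn v i = w :=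
  Subtype.ext (tail_eq_of_cons_eq ((wn_dn v i (by simp [h])).1.symm.trans h))

lemma wn_lt (v : W) (i : Fin 4) : (wn v i).1.length < v.1.length ↔ v.1.head? = some i := by
  by_cases h : v.1.head? = some i
  · simp only [h, iff_true]; rw [(wn_dn v i h).1]; simp
  · simp [h, wn_up v i h]

/-- the 4-regular tree -/
def X4 : CT W 4 where
  nb := wn
  ht v := v.1.length
  r := ⟨[], isChain_nil⟩
  inv v i := by
    by_cases h : v.1.head? = some i
    · exact Subtype.ext (by rw [wn_up _ _ (wn_dn v i h).2, ← (wn_dn v i h).1])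
    · exact wn_cons _ _ _ (wn_up v i h)
  inj v i j e := by
    have e' := congrArg (fun w : W => w.1.length) e
    by_cases h : v.1.head? = some i <;> by_cases h' : v.1.head? = some j
    · simpa [h] using h'
    · have := (wn_lt v i).2 h; have := (wn_lt v j).not.2 h'; omega
    · have := (wn_lt v j).2 h'; have := (wn_lt v i).not.2 h; omega
    · exact head_eq_of_cons_eq ((wn_up v i h).symm.trans (e ▸ wn_up v j h'))
  ne v i := by
    by_cases h : v.1.head? = some i
    · exact ((wn_lt v i).2 h).ne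
    · simp [wn_up v i h]
  one v i j hi hj := by simpa [(wn_lt v i).1 hi] using (wn_lt v j).1 hj
  ex v hv := by
    obtain ⟨_ | ⟨j, t⟩, h⟩ := v
    · exact absurd rfl hv
    · exact ⟨j, (wn_lt _ _).2 rfl⟩

/-- colour with side `s` and offset `o` -/
def cl (s : Fin 2) (o : Fin 3) : Fin 4 := ⟨2 * s + o % 2, by omega⟩

/-- side of a colour -/
def sd (i : Fin 4) : Fin 2 := ⟨i / 2, by omega⟩

/-- neighbours after blowing up each vertex to an edge -/
def n3 (x : W × Fin 2) (o : Fin 3) : W × Fin 2 :=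
  if o = 2 then (x.1, x.2.rev) else (wn x.1 (cl x.2 o), x.2)

/-- height after blowing up -/
def h3 (x : W × Fin 2) : ℕ := 2 * x.1.1.length + if sd (x.1.1.headD 0) = x.2 then 0 else 1

lemma h3_lt (x : W × Fin 2) (o : Fin 3) : h3 (n3 x o) ≠ h3 x ∧ (h3 (n3 x o) < h3 x ↔
    if o = 2 then sd (x.1.1.headD 0) ≠ x.2 else x.1.1.head? = some (cl x.2 o)) := by
  obtain ⟨v, s⟩ := x
  unfold n3 h3
  by_cases ho : o = 2
  · simp only [ho, if_true]
    generalize sd _ = t
    fin_cases t <;> fin_cases s <;> simp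
  · simp only [ho, if_false]
    have := X4.ne v (cl s o)
    rw [← wn_lt]
    change (wn _ _).1.length ≠ v.1.length at this
    split_ifs <;> omega

/-- the 3-regular tree -/
def X3 : CT (W × Fin 2) 3 where
  nb := n3
  ht := h3
  r := (X4.r, 0)
  inv x o := by
    unfold n3
    split_ifs
    · simp
    · exact Prod.ext (X4.inv _ _) rfl
  inj x o p e := by
    unfold n3 at e
    have h : ∀ s : Fin 2, s.rev ≠ s := by decide
    split_ifs at e with h1 h2 h2
    · rw [h1, h2]
    · exact absurd (congrArg Prod.snd e) (h _)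
    · exact absurd (congrArg Prod.snd e).symm (h _)
    · have := X4.inj _ _ _ (congrArg Prod.fst e)
      exact (by decide : ∀ (s : Fin 2) (o p : Fin 3), ¬o = 2 → ¬p = 2 → cl s o = cl s p → o = p)
        _ _ _ h1 h2 this
  ne x o := (h3_lt x o).1
  one x o p ho hp := by
    rw [(h3_lt _ _).2] at ho hp
    obtain ⟨⟨_ | ⟨j, t⟩, h⟩, s⟩ := x
    · split_ifs at ho hp <;> simp_all
    · simp only [headD_cons, head?_cons, Option.some.injEq] at ho hp
      clear h
      revert j s o p
      decide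
  ex x hx := by
    simp only [(h3_lt _ _).2]
    obtain ⟨⟨_ | ⟨j, t⟩, h⟩, s⟩ := x
    · exact ⟨2, fun e : sd 0 = s => hx (Prod.ext rfl e.symm)⟩
    · simp only [headD_cons, head?_cons, Option.some.injEq]
      clear hx h
      revert j s
      decide

/-- stabiliser of the colour 2 -/
def F3 : Subgroup (Perm (Fin 3)) := MulAction.stabilizer _ (2 : Fin 3)

/-- dihedral group of order 8 -/
def F4 : Subgroup (Perm (Fin 4)) where
  carrier := {σ | ∀ i j, sd (σ i) = sd (σ j) ↔ sd i = sd j}
  one_mem' _ _ := Iff.rfl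
  mul_mem' h h' i j := (h _ _).trans (h' i j)
  inv_mem' {σ} h i j := by rw [← h]; simp

/-- trigger -/
def P (n : ℕ) : List (Fin 4) → Bool
  | [] => false
  | i :: l => P n l || (i = 2 && n ≤ l.length)

/-- local action -/
def la (n : ℕ) (l : List (Fin 4)) : Perm (Fin 4) := if P n l then swap 0 1 else 1

/-- twisted words -/
def gl (n : ℕ) : List (Fin 4) → List (Fin 4)
  | [] => []
  | i :: l => la n l i :: gl n l

lemma la_cons (n : ℕ) (l : List (Fin 4)) (i : Fin 4) : la n (i :: l) i = la n l i := by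
  by_cases h : i = 2
  · subst h; unfold la; split_ifs <;> rfl
  · simp [la, P, h]

lemma gl_len (n : ℕ) (l : List (Fin 4)) : (gl n l).length = l.length := by
  induction l <;> simp [gl, *]

lemma la_two (n : ℕ) (l : List (Fin 4)) (i : Fin 4) : la n l i = 2 ↔ i = 2 := by
  unfold la; split_ifs
  · revert i; decide
  · rfl

lemma P_gl (n : ℕ) (l : List (Fin 4)) : P n (gl n l) = P n l := by
  induction l <;> simp [gl, P, gl_len, la_two, *]

lemma gl_gl (n : ℕ) (l : List (Fin 4)) : gl n (gl n l) = l := by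
  induction l with
  | nil => rfl
  | cons i l ih => simp only [gl, ih, la, P_gl]; split_ifs <;> simp

lemma gl_ch (n : ℕ) (l : List (Fin 4)) (h : l.IsChain (· ≠ ·)) : (gl n l).IsChain (· ≠ ·) := by
  induction h with
  | nil => exact isChain_nil
  | singleton i => exact isChain_singleton _
  | @cons_cons i j l h _ ih =>
    exact isChain_cons_cons.2 ⟨by rw [← la_cons n l j]; simpa using h, ih⟩

lemma gl_id (n : ℕ) (l : List (Fin 4)) (h : l.length ≤ n) : P n l = false ∧ gl n l = l := by
  induction l with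
  | nil => exact ⟨rfl, rfl⟩
  | cons i l ih =>
    simp only [length_cons] at h
    simp [P, gl, la, ih (by omega), show ¬ n ≤ l.length by omega]

theorem nondisc {c : Sym2 W → Fin 4} (hc : ∀ v i, c s(v, X4.nb v i) = i) :
    ¬ DiscreteTopology (U X4.T c F4) := fun h => by
  let g : ℕ → Perm W := fun n => Function.Involutive.toPerm (fun v => ⟨gl n v.1, gl_ch n _ v.2⟩)
    fun v => Subtype.ext (gl_gl n v.1)
  have hg : ∀ n, g n ∈ U X4.T c F4 := fun n => (memU hc).2 fun v => ⟨la n v.1, by
    unfold la; split_ifs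
    · show ∀ i j, _; decide
    · exact F4.one_mem, fun i => by
    by_cases e : v.1.head? = some i
    · refine (wn_cons _ _ _ ?_).symm
      show gl n v.1 = _ :: gl n (wn v i).1
      conv_lhs => rw [(wn_dn v i e).1, gl, ← la_cons, ← (wn_dn v i e).1]
    · have := wn_cons (g n (wn v i)) (g n v) (la n v.1 i) (by
        show gl n (wn v i).1 = _
        rw [wn_up v i e]; rfl)
      exact (X4.inv _ _).symm.trans (congrArg (wn · _) this)⟩
  have h1 : Tendsto (fun n => (⟨g n, hg n⟩ : U X4.T c F4)) atTop (𝓝 1) := tendU.2 fun v =>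
    eventually_atTop.2 ⟨v.1.length, fun n hn => Subtype.ext (gl_id n _ hn).2⟩
  rw [nhds_discrete, tendsto_pure] at h1
  obtain ⟨n, hn⟩ := h1.exists
  have h2 : ∀ k, ∃ v : W, k ≤ v.1.length ∧ v.1.head? ≠ some 2 := fun k => by
    induction k with
    | zero => exact ⟨⟨[], isChain_nil⟩, le_rfl, by simp⟩
    | succ k ih =>
      obtain ⟨v, v1, v2⟩ := ih
      have := wn_up (wn v 2) 0 (by simp [wn_up v 2 v2])
      exact ⟨wn (wn v 2) 0, by simp [this, wn_up v 2 v2]; omega, by simp [this]⟩
  obtain ⟨v, v1, v2⟩ := h2 n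
  have h3 : gl n (wn (wn v 2) 0).1 = (wn (wn v 2) 0).1 :=
    congrArg (fun g : U X4.T c F4 => (g.1 (wn (wn v 2) 0)).1) hn
  rw [wn_up (wn v 2) 0 (by simp [wn_up v 2 v2]), wn_up v 2 v2] at h3
  simp [gl, la, P, v1] at h3

end Pool.Agent.H.MP_9a581e_an
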